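import Pool.Agent.R592.Sl.Bounds
import Pool.Agent.R592.Hd.Ground
import Pool.Agent.TH773.PSet.Ground

/-!
# Slalom numbers in the ground model, and the choice of the parameters
-/

set_option autoImplicit false
set_option linter.unusedSectionVars false

namespace Pool.Agent.R592.Sl

open Cardinal Set
open Pool.Agent.TH773.PSet Pool.Agent.R593.Rnd Pool.Agent.R592.Ent

/-! ### The notions of the problem -/

/-- `J` is an ideal on `ω`: a proper ideal of subsets of `ω` containing all finite sets. -/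
structure Ideal' (J : Set (Set ℕ)) : Prop where
  finite : ∀ A : Set ℕ, A.Finite → A ∈ J
  down : ∀ A B : Set ℕ, A ⊆ B → B ∈ J → A ∈ J
  union : ∀ A B : Set ℕ, A ∈ J → B ∈ J → A ∪ B ∈ J
  proper : Set.univ ∉ J

/-- `S_h`: the `h`-slaloms. -/
def Slm (h : ℕ → ℕ) : Set (ℕ → Finset ℕ) := {s | ∀ n, (s n).card ≤ h n}

/-- `κ` is the size of one of the families in the definition of `𝔰𝔩ₜ(h, J)`. -/
def famT (h : ℕ → ℕ) (J : Set (Set ℕ)) : Set Cardinal.{0} :=
  {κ | ∃ S ⊆ Slm h, (∀ x : ℕ → ℕ, ∃ s ∈ S, {n | x n ∉ s n} ∈ J) ∧ #S = κ}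

/-- `κ` is the size of one of the families in the definition of `𝔰𝔩ₑ(h, J)`. -/
def famE (h : ℕ → ℕ) (J : Set (Set ℕ)) : Set Cardinal.{0} :=
  {κ | ∃ S ⊆ Slm h, (∀ x : ℕ → ℕ, ∃ s ∈ S, {n | x n ∈ s n} ∉ J) ∧ #S = κ}

/-- `κ` is the size of one of the families in the definition of `𝔰𝔩ₜ^⊥(h, J)`. -/
def famT' (h : ℕ → ℕ) (J : Set (Set ℕ)) : Set Cardinal.{0} :=
  {κ | ∃ F : Set (ℕ → ℕ), (∀ s ∈ Slm h, ∃ x ∈ F, {n | x n ∉ s n} ∉ J) ∧ #F = κ}

/-- `κ` is the size of one of the families in the definition of `𝔰𝔩ₑ^⊥(h, J)`. -/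
def famE' (h : ℕ → ℕ) (J : Set (Set ℕ)) : Set Cardinal.{0} :=
  {κ | ∃ F : Set (ℕ → ℕ), (∀ s ∈ Slm h, ∃ x ∈ F, {n | x n ∈ s n} ∈ J) ∧ #F = κ}

/-- `V_J`: the set of the (well-defined) values of the four slalom numbers for the ideal `J`. -/
def VJ (J : Set (Set ℕ)) : Set Cardinal.{0} :=
  {κ | ∃ h : ℕ → ℕ, IsLeast (famT h J) κ ∨ IsLeast (famE h J) κ ∨ IsLeast (famT' h J) κ ∨
    IsLeast (famE' h J) κ}

/-! ### The meaning of the sentences -/

theorem unit_finit {A : RName Unit} : () ∈ Finit A ↔ (e A).Finite := by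
  simp only [Finit, unit_fex, mem_fall, unit_fnot, unit_meets]
  constructor
  · rintro ⟨N, hN⟩
    refine (finite_lt_nat N).subset fun n hn => ?_
    by_contra h
    exact hN n (not_lt.1 h) hn
  · intro h
    obtain ⟨N, hN⟩ := h.bddAbove
    exact ⟨N + 1, fun n hn h' => by have := hN h'; omega⟩

theorem unit_isIdeal {J : FName Unit} : () ∈ IsIdeal J ↔ Ideal' (e2 J) := by
  simp only [IsIdeal, mem_fand, mem_fall, unit_fimp, u_Mem, unit_finit, unit_fnot, unit_meets,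
    u_Sub, unit_disj]
  constructor
  · rintro ⟨h1, h2, h3, h4⟩
    refine ⟨fun A hA => ?_, fun A B hAB hB => ?_, fun A B hA hB => ?_, ?_⟩
    · have := h1 (e.symm A)
      rw [e.apply_symm_apply] at this
      exact this hA
    · have := h2 (e.symm A) (e.symm B)
      rw [e.apply_symm_apply, e.apply_symm_apply] at this
      exact this ⟨hAB, hB⟩
    · have := h3 (e.symm A) (e.symm B) (e.symm (A ∪ B))
      rw [e.apply_symm_apply, e.apply_symm_apply, e.apply_symm_apply] at this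
      exact this ⟨hA, hB, fun n hn => hn⟩
    · intro h
      apply h4
      have : e (fun _ => (Set.univ : Set Unit)) = Set.univ := by
        ext n
        simp [mem_e]
      rw [this]
      exact h
  · intro h
    refine ⟨fun A hA => h.finite _ hA, fun A B hAB => h.down _ _ hAB.1 hAB.2, fun A B C hABC => ?_,
      fun h' => h.proper ?_⟩
    · exact h.down _ _ (fun n hn => hABC.2.2 n hn) (h.union _ _ hABC.1 hABC.2.1)
    · have : e (fun _ => (Set.univ : Set Unit)) = Set.univ := by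
        ext n
        simp [mem_e]
      rwa [this] at h'

theorem unit_isSlalom {h s : ℕ → ℕ → Set Unit} {h' : ℕ → ℕ} (hh : ∀ n k, () ∈ h n k ↔ h' n = k) :
    () ∈ IsSlalom h s ↔ ∃ s' ∈ Slm h', ∀ n k, () ∈ s n k ↔ k ∈ s' n := by
  simp only [IsSlalom, mem_fall, unit_fimp, unit_meets, unit_fex, unit_fnot, hh]
  constructor
  · intro h1
    have h2 : ∀ n, {k | () ∈ s n k}.Finite := by
      intro n
      by_contra hinf
      obtain ⟨F, hF, hFc⟩ := Set.Infinite.exists_subset_card_eq hinf (h' n + 1)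
      obtain ⟨k, hk, hk'⟩ := h1 n F (h' n) (by omega) rfl
      exact hk' (hF hk)
    refine ⟨fun n => (h2 n).toFinset, fun n => ?_, fun n k => by simp⟩
    by_contra hlt
    rw [not_le] at hlt
    obtain ⟨k, hk, hk'⟩ := h1 n _ (h' n) hlt rfl
    exact hk' (by simpa using hk)
  · rintro ⟨s', hs', hss⟩ n F m hm rfl
    have h3 : ¬ F ⊆ s' n := fun hsub => absurd (Finset.card_le_card hsub)
      (not_le.2 ((hs' n).trans_lt hm))
    obtain ⟨k, hk, hk'⟩ := Finset.not_subset.1 h3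
    exact ⟨k, hk, fun h => hk' ((hss n k).1 h)⟩

theorem unit_cap {x s : ℕ → ℕ → Set Unit} {x' : ℕ → ℕ} {s' : ℕ → Finset ℕ}
    (hx : ∀ n k, () ∈ x n k ↔ x' n = k) (hs : ∀ n k, () ∈ s n k ↔ k ∈ s' n) :
    e (Cap x s) = {n | x' n ∈ s' n} := by
  ext n
  simp only [mem_e, Cap, unit_fex, mem_fand, unit_meets, hx, hs, mem_ofPred_eq]
  exact ⟨fun ⟨k, hk, hk'⟩ => hk ▸ hk', fun h => ⟨_, rfl, h⟩⟩

theorem unit_slE {h : ℕ → ℕ → Set Unit} {h' : ℕ → ℕ} (hh : ∀ n k, () ∈ h n k ↔ h' n = k)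
    {J : FName Unit} {Y : Type} :
    () ∈ SlE h J Y ↔ ∃ κ ∈ famE h' (e2 J), κ ≤ #Y := by
  simp only [SlE, unit_fex, mem_fand, mem_fall, unit_isSlalom hh, unit_fimp, unit_isFun, unit_fnot,
    u_Mem]
  constructor
  · rintro ⟨D, h1, h2⟩
    choose D' hD' hDD using h1
    refine ⟨#(range D'), ⟨range D', ?_, fun x => ?_, rfl⟩, mk_range_le⟩
    · rintro _ ⟨y, rfl⟩
      exact hD' y
    · obtain ⟨y, hy⟩ := h2 (fun n k => {_p | x n = k}) ⟨x, fun _ _ => Iff.rfl⟩
      refine ⟨D' y, ⟨y, rfl⟩, ?_⟩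
      rwa [unit_cap (x' := x) (s' := D' y) (fun _ _ => Iff.rfl) (hDD y)] at hy
  · rintro ⟨κ, ⟨S, hS, h1, rfl⟩, hle⟩
    obtain ⟨f⟩ := hle
    obtain ⟨s0, hs0, -⟩ := h1 (fun _ => 0)
    have : Nonempty S := ⟨⟨s0, hs0⟩⟩
    refine ⟨fun y n k => {_p | k ∈ (Function.invFun f y).1 n}, fun y =>
      ⟨(Function.invFun f y).1, hS (Function.invFun f y).2, fun _ _ => Iff.rfl⟩, ?_⟩
    rintro x ⟨x', hx'⟩
    obtain ⟨s, hs, hs'⟩ := h1 x'
    refine ⟨f ⟨s, hs⟩, ?_⟩
    rw [unit_cap (x' := x') (s' := s) (fun n k => (hx' n k)) (fun n k => ?_)]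
    · exact hs'
    · show k ∈ (Function.invFun f (f ⟨s, hs⟩)).1 n ↔ _
      rw [Function.leftInverse_invFun f.injective]

theorem unit_model {I : Type} {κ : I → Cardinal.{0}} {p : Unit} :
    p ∈ Model Unit I κ ↔
      (𝔠 ≤ #I ∧ ∃ J, Ideal' J ∧ ∀ i, ∃ h, IsLeast (famE h J) (κ i)) := by
  have key : ∀ (h' : ℕ → ℕ) (J : Set (Set ℕ)) (c : Cardinal.{0}),
      ((∃ κ ∈ famE h' J, κ ≤ c) ∧ ∀ μ : Cardinal.{0}, μ < c → ¬ ∃ κ ∈ famE h' J, κ ≤ μ) ↔
        IsLeast (famE h' J) c := by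
    intro h' J c
    constructor
    · rintro ⟨⟨κ, h1, h2⟩, h3⟩
      have h4 : κ = c := by
        by_contra hne
        exact h3 κ (lt_of_le_of_ne h2 hne) ⟨κ, h1, le_rfl⟩
      refine ⟨h4 ▸ h1, fun μ hμ => ?_⟩
      by_contra hlt
      exact h3 μ (not_le.1 hlt) ⟨μ, hμ, le_rfl⟩
    · rintro ⟨h1, h2⟩
      exact ⟨⟨c, h1, le_rfl⟩, fun μ hμ ⟨κ, hκ, hκ'⟩ =>
        absurd ((h2 hκ).trans hκ') (not_le.2 hμ)⟩
  obtain rfl : p = () := rfl
  simp only [Model, mem_fand, mem_fall, unit_continuumLe, Hd.unit_staysCardinal, implies_true,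
    true_and, unit_fex, unit_isFun, unit_fnot, unit_isIdeal]
  refine and_congr_right fun _ => ?_
  constructor
  · rintro ⟨J, hJ, h1⟩
    refine ⟨e2 J, hJ, fun i => ?_⟩
    obtain ⟨h, ⟨h', hh⟩, h2, h3⟩ := h1 i
    have hh2 : ∀ n k, () ∈ h n k ↔ h' n = k := fun n k => hh n k
    refine ⟨h', (key _ _ _).1 ⟨?_, fun μ hμ => ?_⟩⟩
    · have := (unit_slE hh2).1 h2
      rwa [mk_out] at this
    · have := (not_congr (unit_slE hh2)).1 (h3 μ hμ)
      rwa [mk_out] at this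
  · rintro ⟨J, hJ, h1⟩
    refine ⟨e2.symm J, by rwa [e2.apply_symm_apply], fun i => ?_⟩
    obtain ⟨h', h2⟩ := h1 i
    obtain ⟨h3, h4⟩ := (key _ _ _).2 h2
    refine ⟨fun n k => {_p | h' n = k}, ⟨h', fun _ _ => Iff.rfl⟩, ?_, fun μ hμ => ?_⟩
    · rw [unit_slE (h' := h') (fun _ _ => Iff.rfl), e2.apply_symm_apply, mk_out]
      exact h3
    · rw [unit_slE (h' := h') (fun _ _ => Iff.rfl), e2.apply_symm_apply, mk_out]
      exact h4 μ hμ

/-! ### `|V_J| = 𝔠` -/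

theorem VJ_le (J : Set (Set ℕ)) : ∀ κ ∈ VJ J, κ ≤ 𝔠 := by
  have h1 : #(ℕ → Finset ℕ) = 𝔠 := by
    rw [mk_arrow]
    simp
  have h2 : #(ℕ → ℕ) = 𝔠 := by simp
  rintro κ ⟨h, ⟨⟨S, -, -, rfl⟩, -⟩ | ⟨⟨S, -, -, rfl⟩, -⟩ | ⟨⟨S, -, rfl⟩, -⟩ | ⟨⟨S, -, rfl⟩, -⟩⟩
  · exact (mk_set_le S).trans_eq h1
  · exact (mk_set_le S).trans_eq h1
  · exact (mk_set_le S).trans_eq h2
  · exact (mk_set_le S).trans_eq h2

theorem mk_VJ_le (J : Set (Set ℕ)) : #(VJ J) ≤ (𝔠 : Cardinal.{1}) := by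
  have h1 : #(VJ J) ≤ #(Iio (Order.succ (𝔠 : Cardinal.{0}).ord)) := by
    refine mk_le_of_injective (f := fun κ : VJ J => (⟨κ.1.ord, ?_⟩ :
      Iio (Order.succ (𝔠 : Cardinal.{0}).ord))) fun κ κ' h => ?_
    · rw [mem_Iio, Order.lt_succ_iff, ord_le_ord]
      exact VJ_le J κ.1 κ.2
    · exact Subtype.ext (ord_injective (congrArg Subtype.val h))
  refine h1.trans ?_
  rw [mk_Iio_ordinal, Order.succ_eq_add_one, Ordinal.card_add, card_ord, Ordinal.card_one,
    add_one_of_aleph0_le aleph0_le_continuum, lift_continuum]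

theorem mk_VJ {I : Type} {κ : I → Cardinal.{0}} (hκ : Function.Injective κ) (hI : 𝔠 ≤ #I)
    {J : Set (Set ℕ)} (hJ : ∀ i, ∃ h, IsLeast (famE h J) (κ i)) :
    #(VJ J) = (𝔠 : Cardinal.{1}) := by
  refine le_antisymm (mk_VJ_le J) ?_
  have h1 : Cardinal.lift.{1} #I ≤ Cardinal.lift.{0} #(VJ J) :=
    Cardinal.lift_mk_le'.2 ⟨⟨fun i => ⟨κ i, by
      obtain ⟨h, hh⟩ := hJ i
      exact ⟨h, Or.inr (Or.inl hh)⟩⟩, fun i i' h => hκ (congrArg Subtype.val h)⟩⟩
  rw [Cardinal.lift_uzero] at h1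
  refine le_trans ?_ h1
  rw [← lift_continuum.{1, 0}]
  exact Cardinal.lift_le.2 hI

/-! ### The choice of the parameters -/

theorem pow_eq {c : Cardinal.{0}} (h0 : ℵ₀ ≤ c) (hsl : IsStrongPrelimit c)
    (hcof : ℵ₀ < c.ord.cof) : c ^ ℵ₀ = c := by
  refine le_antisymm ?_ (self_le_power _ one_le_aleph0)
  have h1 : #(ℕ × c.out) = c := by
    rw [mk_prod, Cardinal.lift_id, Cardinal.lift_id, mk_nat, mk_out]
    exact mul_eq_right h0 h0 aleph0_ne_zero
  calc c ^ ℵ₀ = #(ℕ → c.out) := by rw [mk_arrow, Cardinal.lift_id, Cardinal.lift_id, mk_nat, mk_out]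
    _ ≤ #{s : Set (ℕ × c.out) // #s < (#(ℕ × c.out)).ord.cof} := by
      refine mk_le_of_injective (f := fun f => ⟨range fun n => (n, f n),
        mk_range_le.trans_lt (by rwa [mk_nat, h1])⟩) fun f g h => ?_
      have h' : (range fun n => (n, f n)) = range fun n => (n, g n) := congrArg Subtype.val h
      funext n
      have h2 : (n, f n) ∈ range fun n => (n, g n) := by
        rw [← h']
        exact ⟨n, rfl⟩
      obtain ⟨m, hm⟩ := h2
      have h3 : m = n := congrArg Prod.fst hm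
      have h4 : g m = f n := congrArg Prod.snd hm
      rw [← h4, h3]
    _ = #(ℕ × c.out) := mk_subset_mk_lt_cof (by rwa [h1])
    _ = c := h1

open Ordinal in
theorem exists_model : ∃ (I : Type) (κ : I → Cardinal.{0}) (P : Type) (_ : Preorder P),
    Function.Injective κ ∧ Nonempty P ∧ ∀ p : P, p ∈ Model P I κ := by
  -- a fixed point of the beth function of cofinality `ω₁`
  let f : Ordinal.{0} → Ordinal.{0} := fun o => (ℶ_ o).ord
  have hf : Order.IsNormal f := isNormal_ord.comp isNormal_beth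
  let l : Ordinal.{0} := deriv f (ω₁ : Ordinal.{0})
  have hlim1 : Order.IsSuccLimit (ω₁ : Ordinal.{0}) := Cardinal.isSuccLimit_omega 1
  have hfl : (ℶ_ l).ord = l := deriv_fp hf _
  have hcofl : l.cof = ℵ₁ := by
    show (deriv f ω₁).cof = ℵ₁
    rw [cof_map_of_isNormal (isNormal_deriv f) hlim1, cof_omega_one]
  have hlim : Order.IsSuccLimit l := by
    rw [← one_lt_cof_iff, hcofl]
    exact one_lt_aleph0.trans aleph0_lt_aleph_one
  let c : Cardinal.{0} := ℶ_ l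
  have hc : c.ord = l := hfl
  have hc0 : ℵ₀ ≤ c := aleph0_le_beth l
  have hpow : c ^ ℵ₀ = c := pow_eq hc0 (isStrongLimit_beth.2 hlim.isSuccPrelimit).isStrongPrelimit
    (by rw [hc, hcofl]; exact aleph0_lt_aleph_one)
  let I : Type := l.ToType
  have hI : #I = c := by
    show #l.ToType = c
    rw [mk_toType, ← hc, card_ord]
  let κ : I → Cardinal.{0} := fun i => ℵ_ ((ToType.mk.symm i : Ordinal) + 1)
  have hκ : Function.Injective κ := by
    intro i j h
    have h1 : (ToType.mk.symm i : Ordinal) + 1 = (ToType.mk.symm j : Ordinal) + 1 :=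
      Cardinal.aleph.injective h
    have h2 : (ToType.mk.symm i : Ordinal) = (ToType.mk.symm j : Ordinal) := by
      simpa using h1
    exact ToType.mk.symm.injective (Subtype.ext h2)
  have hκc : ∀ i, κ i ≤ c := by
    intro i
    refine (aleph_le_beth _).trans (beth_strictMono.monotone ?_)
    have h1 : (ToType.mk.symm i : Ordinal) < l := (ToType.mk.symm i).2
    exact (hlim.succ_lt h1).le
  have hreg : ∀ i, (κ i).IsRegular := fun i => isRegular_aleph_add_one _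
  have hκ0 : ∀ i, ℵ₀ < κ i := by
    intro i
    rw [← aleph_zero]
    exact aleph_lt_aleph.2 (by simp)
  let K : I → Type := fun i => (κ i).ord.ToType
  have hK : ∀ i, #(K i) = κ i := fun i => mk_ord_toType _
  have hIne : Nonempty I := by
    rw [← mk_ne_zero_iff, hI]
    exact (aleph0_pos.trans_le hc0).ne'
  have hCrd : #(Crd I K) ≤ c := by
    have h1 : #(Crd I K) ≤ #(I ⊕ (Σ i, K i) ⊕ (Σ i, K i)) := by
      refine mk_le_of_injective (f := fun x => match x with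
        | .br i => Sum.inl i
        | .lo i β => Sum.inr (Sum.inl ⟨i, β⟩)
        | .up i β => Sum.inr (Sum.inr ⟨i, β⟩)) fun x y h => ?_
      cases x <;> cases y <;> simp at h ⊢ <;> exact h
    have h2 : #(Σ i, K i) ≤ c := by
      rw [mk_sigma]
      refine (Cardinal.sum_le_sum _ (fun _ => c) fun i => (hK i).trans_le (hκc i)).trans ?_
      rw [Cardinal.sum_const', hI]
      exact (mul_eq_self hc0).le
    refine h1.trans ?_
    rw [mk_sum, mk_sum]
    simp only [Cardinal.lift_id]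
    exact add_le_of_le hc0 hI.le (add_le_of_le hc0 h2 h2)
  have hOpt : #(Option (Finset ((Crd I K × ℕ) × ℕ))) ≤ c := by
    have h1 : #((Crd I K × ℕ) × ℕ) ≤ c := by
      rw [mk_prod, mk_prod]
      simp only [Cardinal.lift_id, mk_nat]
      exact mul_le_of_le hc0 (mul_le_of_le hc0 hCrd hc0) hc0
    have h2 : #(Finset ((Crd I K × ℕ) × ℕ)) ≤ c := by
      have : Infinite ((Crd I K × ℕ) × ℕ) := by
        obtain ⟨i⟩ := hIne
        exact Infinite.of_injective (fun n : ℕ => ((Crd.br i, 0), n)) fun a b h => by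
          simpa using h
      rw [mk_finset_of_infinite]
      exact h1
    rw [mk_option]
    exact add_le_of_le hc0 h2 (one_le_aleph0.trans hc0)
  refine ⟨I, κ, Fn (Crd I K), inferInstance, hκ, ⟨⟨∅, fun _ => 0⟩⟩, fun p => ?_⟩
  refine model κ hK (fun i => (hκ0 i).trans_eq (hK i).symm) (fun i T hT => ?_) ?_ p
  · by_contra hcon
    push Not at hcon
    have h1 : IsCofinal T := fun α => by
      obtain ⟨β, hβ, hβ'⟩ := hcon α
      exact ⟨β, hβ, hβ'⟩
    have h2 := Order.cof_le h1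
    rw [cof_toType, (hreg i).cof_ord, ← hK i] at h2
    exact absurd h2 (not_le.2 hT)
  · rw [← Cardinal.le_def, hI, mk_arrow, mk_arrow]
    simp only [Cardinal.lift_id, mk_nat]
    calc (#(Option (Finset ((Crd I K × ℕ) × ℕ))) ^ ℵ₀) ^ ℵ₀ ≤ (c ^ ℵ₀) ^ ℵ₀ :=
          power_le_power_right (power_le_power_right hOpt)
      _ = c := by rw [hpow, hpow]

end Pool.Agent.R592.Sl
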