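import Pool.Agent.R592.Sl.Main

/-!
# The values of the slalom numbers
-/

set_option autoImplicit false
set_option linter.unusedSectionVars false

namespace Pool.Agent.R592.Sl

open Cardinal Set
open Pool.Agent.TH773.PSet Pool.Agent.R593.Rnd Pool.Agent.R592.Ent

variable {I : Type} {K : I → Type} [∀ i, LinearOrder (K i)]

/-- `n` is the code of a member of the branch added for `i`. -/
def onb (i : I) (n : ℕ) : Set (Fn (Crd I K)) := {p | ∃ s, code s = n ∧ p ∈ Br i s}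

theorem down_onb (i : I) (n : ℕ) : Down (onb (K := K) i n) := by
  rintro p ⟨s, hs, hp⟩ q hq
  exact ⟨s, hs, down_Br i s p hp q hq⟩

/-- the characteristic function of the branch added for `i` -/
def hh (i : I) (n k : ℕ) : Set (Fn (Crd I K)) :=
  {p | (k = 1 ∧ p ∈ onb i n) ∨ (k = 0 ∧ p ∈ fnot (onb i n))}

theorem down_hh (i : I) (n k : ℕ) : Down (hh (K := K) i n k) := by
  rintro p (⟨h1, h2⟩ | ⟨h1, h2⟩) q hq
  · exact Or.inl ⟨h1, down_onb i n p h2 q hq⟩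
  · exact Or.inr ⟨h1, down_fnot _ p h2 q hq⟩

theorem isFun_hh (i : I) (p : Fn (Crd I K)) : p ∈ IsFun (hh (K := K) i) := by
  refine ⟨fun n => mem_fex.2 fun q _ => ?_, fun n k k' hne q _ hq => ?_⟩
  · by_cases h : ∃ r ≤ q, r ∈ onb (K := K) i n
    · obtain ⟨r, hr, hr'⟩ := h
      exact ⟨r, hr, 1, subset_meets (down_hh i n 1) (Or.inl ⟨rfl, hr'⟩)⟩
    · push Not at h
      exact ⟨q, le_rfl, 0, subset_meets (down_hh i n 0) (Or.inr ⟨rfl, h⟩)⟩
  · obtain ⟨h1, h2⟩ := hq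
    obtain ⟨r, hr, s, hs, hrs⟩ := h1 q le_rfl
    obtain ⟨r', hr', s', hs', hrs'⟩ := h2 r hr
    have h3 := down_hh i n k s hs r' (hr'.trans hrs)
    have h4 := down_hh i n k' s' hs' r' hrs'
    rcases h3 with ⟨h3, h3'⟩ | ⟨h3, h3'⟩ <;> rcases h4 with ⟨h4, h4'⟩ | ⟨h4, h4'⟩
    · exact hne (h3.trans h4.symm)
    · exact h4' r' le_rfl h3'
    · exact h3' r' le_rfl h4'
    · exact hne (h3.trans h4.symm)

theorem exists_hh (i : I) (n : ℕ) (p : Fn (Crd I K)) :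
    ∃ q ≤ p, (q ∈ onb i n) ∨ q ∈ fnot (onb (K := K) i n) := by
  by_cases h : ∃ r ≤ p, r ∈ onb (K := K) i n
  · obtain ⟨r, hr, hr'⟩ := h
    exact ⟨r, hr, Or.inl hr'⟩
  · push Not at h
    exact ⟨p, le_rfl, Or.inr h⟩

/-- the `hh i`-slalom given by the generic function `up i α` -/
def DD (i : I) (α : K i) (n k : ℕ) : Set (Fn (Crd I K)) := {p | p ∈ onb i n ∧ p ∈ gr (.up i α) n k}

theorem down_DD (i : I) (α : K i) (n k : ℕ) : Down (DD i α n k) :=
  fun p hp q hq => ⟨down_onb i n p hp.1 q hq, down_gr _ _ _ p hp.2 q hq⟩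

theorem isSlalom_DD (i : I) (α : K i) (p : Fn (Crd I K)) : p ∈ IsSlalom (hh i) (DD i α) := by
  intro n F m hm
  refine mem_fimp.2 fun q _ hq => ?_
  obtain ⟨r, hr, s, hs, hrs⟩ := hq q le_rfl
  rcases down_hh i n m s hs r hrs with ⟨h1, -⟩ | ⟨h1, h2⟩
  · subst h1
    obtain ⟨t, ht, v, hv⟩ := exists_gr (Crd.up i α) n r
    obtain ⟨k, hk, hkv⟩ : ∃ k ∈ F, k ≠ v := by
      by_contra hcon
      push Not at hcon
      have : F.card ≤ 1 := Finset.card_le_one.2 fun a ha b hb => (hcon a ha).trans (hcon b hb).symm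
      omega
    refine ⟨t, ht.trans hr, mem_fex_of k fun t' ht' => mem_fex_of hk fun t'' ht'' u hu h => ?_⟩
    obtain ⟨u', hu', w, hw, huw⟩ := h u le_rfl
    have h3 : u' ∈ gr (Crd.up i α) n v :=
      down_gr _ _ _ t hv u' (hu'.trans (hu.trans (ht''.trans ht')))
    have h4 := down_gr _ _ _ w hw.2 u' huw
    exact hkv (h4.2.symm.trans h3.2)
  · obtain ⟨k, hk⟩ : F.Nonempty := Finset.card_pos.1 (by omega)
    refine ⟨r, hr, mem_fex_of k fun t' ht' => mem_fex_of hk fun t'' ht'' u hu h => ?_⟩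
    obtain ⟨u', hu', w, hw, huw⟩ := h u le_rfl
    exact h2 u' (hu'.trans (hu.trans (ht''.trans ht'))) (down_onb i n w hw.1 u' huw)

theorem exists_stage {i : I} (hK : ℵ₀ < #(K i))
    (hreg : ∀ T : Set (K i), #T < #(K i) → ∃ α, ∀ β ∈ T, β < α) {S : Set (Crd I K)}
    (hS : #S < #(K i)) : ∃ α : K i, S ⊆ St i α := by
  obtain ⟨α, hα⟩ := hreg ({β | Crd.lo i β ∈ S} ∪ {β | Crd.up i β ∈ S}) (by
    refine (mk_union_le _ _).trans_lt (add_lt_of_lt hK.le ?_ ?_)
    · refine lt_of_le_of_lt (mk_le_of_injective (f := fun β : {β | Crd.lo i β ∈ S} =>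
        (⟨Crd.lo i β.1, β.2⟩ : S)) fun β β' h => ?_) hS
      have := congrArg Subtype.val h
      simp only [Crd.lo.injEq, heq_eq_eq, true_and] at this
      exact Subtype.ext this
    · refine lt_of_le_of_lt (mk_le_of_injective (f := fun β : {β | Crd.up i β ∈ S} =>
        (⟨Crd.up i β.1, β.2⟩ : S)) fun β β' h => ?_) hS
      have := congrArg Subtype.val h
      simp only [Crd.up.injEq, heq_eq_eq, true_and] at this
      exact Subtype.ext this)
  refine ⟨α, fun c hc β hβ => ⟨?_, ?_⟩⟩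
  · rintro rfl
    exact absurd (hα β (Or.inl hc)) (not_lt.2 hβ)
  · rintro rfl
    exact absurd (hα β (Or.inr hc)) (not_lt.2 hβ)

theorem slE_upper {i : I} (hK : ℵ₀ < #(K i))
    (hreg : ∀ T : Set (K i), #T < #(K i) → ∃ α, ∀ β ∈ T, β < α) {Y : Type} (e : K i ≃ Y)
    (p : Fn (Crd I K)) : p ∈ SlE (hh i) (JJ (K := K)) Y := by
  refine mem_fex_of (fun y => DD i (e.symm y)) fun q _ =>
    ⟨fun y => isSlalom_DD i _ q, fun x => mem_fimp.2 fun r _ hx => ?_⟩
  obtain ⟨S, hS, hSx⟩ := exists_sup (isFun_tot x)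
  obtain ⟨α, hα⟩ := exists_stage hK hreg (S := S) (hS.le_aleph0.trans_lt hK)
  refine ⟨r, le_rfl, mem_fex_of (e α) fun r' hr' t ht h => ?_⟩
  rw [mem_iff, mem_JJ_iff] at h
  obtain ⟨u, hu, L, m, hL⟩ := h i t le_rfl
  obtain ⟨s, hs, v, hv, h1, ⟨k, hk, hk'⟩, h2⟩ := key i α (isFun_tot x) (hSx.mono hα) L u m
  refine hL s hs v hv ⟨h1, ?_, fun g hg => h2 g hg⟩
  have hvr : v ≤ r := hv.trans (hu.trans (ht.trans hr'))
  refine subset_meets (reg_fex _).1 (mem_fex_of k fun w hw => ⟨?_, ?_⟩)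
  · exact (meets_tot ((reg_isFun x).1 r hx w (hw.trans hvr)) _ _).1 ((reg_meets _).1 v hk w hw)
  · refine subset_meets (down_DD _ _ _ _) ⟨⟨s, rfl, down_Br i s v h1 w hw⟩, ?_⟩
    rw [Equiv.symm_apply_apply]
    exact down_gr _ _ _ v hk' w hw

/-- the function chosen by a slalom with at most one value -/
def val {P : Type} [Preorder P] (s : ℕ → ℕ → Set P) (n k : ℕ) : Set P :=
  {p | p ∈ meets (s n k) ∨ (k = 0 ∧ p ∈ fnot (fex fun k' : ℕ => meets (s n k')))}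

theorem down_val {P : Type} [Preorder P] (s : ℕ → ℕ → Set P) (n k : ℕ) : Down (val s n k) := by
  rintro p (h | ⟨h, h'⟩) q hq
  · exact Or.inl ((reg_meets _).1 p h q hq)
  · exact Or.inr ⟨h, down_fnot _ p h' q hq⟩

theorem isFun_val {i : I} {s : ℕ → ℕ → Set (Fn (Crd I K))} {p : Fn (Crd I K)}
    (hp : p ∈ IsSlalom (hh i) s) : p ∈ IsFun (val s) := by
  refine ⟨fun n => mem_fex.2 fun q _ => ?_, fun n k k' hne q hq hqk => ?_⟩
  · by_cases h : ∃ r ≤ q, ∃ k, r ∈ meets (s n k)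
    · obtain ⟨r, hr, k, hk⟩ := h
      exact ⟨r, hr, k, subset_meets (down_val s n k) (Or.inl hk)⟩
    · push Not at h
      refine ⟨q, le_rfl, 0, subset_meets (down_val s n 0) (Or.inr ⟨rfl, fun r hr hr' => ?_⟩)⟩
      obtain ⟨t, ht, k, hk⟩ := mem_fex.1 hr' r le_rfl
      exact h t (ht.trans hr) k hk
  · obtain ⟨h1, h2⟩ := hqk
    obtain ⟨r, hr, a, ha, hra⟩ := h1 q le_rfl
    obtain ⟨r', hr', a', ha', hra'⟩ := h2 r hr
    have h3 := down_val s n k a ha r' (hr'.trans hra)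
    have h4 := down_val s n k' a' ha' r' hra'
    have hrp : r' ≤ p := hr'.trans (hr.trans hq)
    rcases h3 with h3 | ⟨h3, h3'⟩ <;> rcases h4 with h4 | ⟨h4, h4'⟩
    · obtain ⟨t, ht, hh1⟩ := exists_hh (K := K) i n r'
      obtain ⟨m, hm, hm'⟩ : ∃ m, m < ({k, k'} : Finset ℕ).card ∧ t ∈ meets (hh i n m) := by
        rw [Finset.card_pair hne]
        rcases hh1 with hh1 | hh1
        · exact ⟨1, by norm_num, subset_meets (down_hh i n 1) (Or.inl ⟨rfl, hh1⟩)⟩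
        · exact ⟨0, by norm_num, subset_meets (down_hh i n 0) (Or.inr ⟨rfl, hh1⟩)⟩
      obtain ⟨u, hu, hu'⟩ := mem_fimp.1 (hp n {k, k'} m hm) t (ht.trans hrp) hm'
      obtain ⟨v, hv, l, hl⟩ := mem_fex.1 hu' u le_rfl
      obtain ⟨w, hw, hlF, hl'⟩ := mem_fex.1 hl v le_rfl
      have hwr : w ≤ r' := hw.trans (hv.trans (hu.trans ht))
      rcases Finset.mem_insert.1 hlF with rfl | h5
      · exact hl' w le_rfl ((reg_meets _).1 r' h3 w hwr)
      · rw [Finset.mem_singleton] at h5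
        subst h5
        exact hl' w le_rfl ((reg_meets _).1 r' h4 w hwr)
    · exact h4' r' le_rfl (mem_fex_of k fun w hw => (reg_meets _).1 r' h3 w hw)
    · exact h3' r' le_rfl (mem_fex_of k' fun w hw => (reg_meets _).1 r' h4 w hw)
    · exact hne (h3.trans h4.symm)

theorem slE_lower {i : I} (hK : ℵ₀ < #(K i))
    (hreg : ∀ T : Set (K i), #T < #(K i) → ∃ α, ∀ β ∈ T, β < α) {Y : Type} (hY : #Y < #(K i))
    (p : Fn (Crd I K)) : p ∈ fnot (SlE (hh i) (JJ (K := K)) Y) := by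
  intro p' _ hp'
  obtain ⟨r, -, D, hD1, hD2⟩ := mem_fex.1 hp' p' le_rfl
  choose S hS hSx using fun y => exists_sup (isFun_tot (val (D y)))
  obtain ⟨α, hα⟩ := exists_stage hK hreg (S := ⋃ y, S y) (by
    refine lt_of_le_of_lt (mk_iUnion_le_sum_mk.trans
      (Cardinal.sum_le_sum _ (fun _ => ℵ₀) fun y => (hS y).le_aleph0)) ?_
    rw [Cardinal.sum_const']
    exact mul_lt_of_lt hK.le hY hK)
  obtain ⟨r1, hr1, hr1'⟩ := mem_fimp.1 (hD2 (gr (Crd.lo i α))) r le_rfl (isFun_gr _ r)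
  obtain ⟨r2, hr2, y, hy⟩ := mem_fex.1 hr1' r1 le_rfl
  have hr : r2 ≤ r := hr2.trans hr1
  refine hy r2 le_rfl (mem_iff.2 (mem_JJ_iff.2 fun i' q hq => ?_))
  by_cases hi : i' = i
  · subst hi
    let g : Gen K i' := ⟨(α, tot (val (D y))), isFun_tot _,
      (hSx y).mono ((subset_iUnion S y).trans hα)⟩
    refine ⟨q, le_rfl, [g], 0, fun s _ t ht h => ?_⟩
    obtain ⟨-, h2, h3⟩ := h
    have h4 := h3 g (List.mem_singleton_self g)
    obtain ⟨u, hu, w, hw, huw⟩ := h2 t le_rfl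
    obtain ⟨u', hu', k, hk⟩ := mem_fex.1 ((reg_fex _).1 w hw u huw) u le_rfl
    have hu2 : u' ≤ r := hu'.trans (hu.trans (ht.trans (hq.trans hr)))
    refine h4 u' (hu'.trans hu) (mem_fex_of k fun v hv => ⟨?_, ?_⟩)
    · have h5 := hk.1
      rw [meets_gr] at h5
      exact down_gr _ _ _ u' h5 v hv
    · refine (meets_tot ((reg_isFun _).1 r (isFun_val (hD1 y)) v (hv.trans hu2)) _ _).2 ?_
      exact subset_meets (down_val _ _ _) (Or.inl ((reg_meets _).1 u' hk.2 v hv))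
  · obtain ⟨M, hM⟩ : ∃ M, ∀ t ∈ q.dom, t.2 < M := by
      refine ⟨q.dom.sup (fun t => t.2) + 1, fun t ht => Nat.lt_succ_of_le ?_⟩
      exact Finset.le_sup (f := fun t : Crd I K × ℕ => t.2) ht
    obtain ⟨q1, hq1, h1, h2, h3⟩ := exists_ext q (Crd.br i, M) (fun h => by
      have := hM _ h
      simp at this) 0
    obtain ⟨q2, hq2, h4, h5, h6⟩ := exists_ext q1 (Crd.br i', M) (fun h => by
      rcases h3 _ h with h | h
      · have := hM _ h
        simp at this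
      · simp only [Prod.mk.injEq, Crd.br.injEq, and_true] at h
        exact hi h) 1
    refine ⟨q2, hq2.trans hq1, [], M + 1, fun s hs t ht h => ?_⟩
    obtain ⟨h7, h8, -⟩ := h
    have hsM : M < s.length := hs
    have hoff : t ∈ fnot (onb (K := K) i (code s)) := by
      rintro t' ht' ⟨s', hs', hb⟩
      have := code_inj hs'
      subst this
      have h9 := (hb M hsM).2
      have h10 := (h7 M hsM).2
      have h11 : t'.val (Crd.br i, M) = 0 := by
        have h12 : t' ≤ q1 := ht'.trans (ht.trans hq2)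
        rw [h12.2 _ h1, h2]
      have h13 : t.val (Crd.br i', M) = 1 := by
        rw [ht.2 _ h4, h5]
      rw [h11] at h9
      rw [h13] at h10
      omega
    obtain ⟨u, hu, w, hw, huw⟩ := h8 t le_rfl
    obtain ⟨u', hu', k, hk⟩ := mem_fex.1 ((reg_fex _).1 w hw u huw) u le_rfl
    have hut : u' ≤ t := hu'.trans hu
    have hur : u' ≤ r := hut.trans (ht.trans (hq2.trans (hq1.trans (hq.trans hr))))
    obtain ⟨v, hv, hv'⟩ := mem_fimp.1 (hD1 y (code s) {k} 0 (by simp)) u' hur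
      (subset_meets (down_hh i _ 0) (Or.inr ⟨rfl, down_fnot _ t hoff u' hut⟩))
    obtain ⟨v', hv1, l, hl⟩ := mem_fex.1 hv' v le_rfl
    obtain ⟨v'', hv2, hlF, hl'⟩ := mem_fex.1 hl v' le_rfl
    rw [Finset.mem_singleton] at hlF
    subst hlF
    exact hl' v'' le_rfl ((reg_meets _).1 u' hk.2 v'' (hv2.trans (hv1.trans hv)))

theorem staysCardinal {P : Type} [Preorder P] (hP : Ccc P) {X : Type} (hX : ℵ₀ < #X) (p : P) :
    p ∈ Hd.StaysCardinal P X := by
  intro μ hμ q _ hq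
  obtain ⟨r, _, R, hR1, hR2⟩ := mem_fex.1 hq q le_rfl
  have h1 : ∀ y : X, ∃ s ≤ r, ∃ x : μ.out, s ∈ meets (R x y) := fun y =>
    mem_fex.1 (hR2 y) r le_rfl
  choose f hf x hx using h1
  obtain ⟨y, y', hne, hz, s, hs1, hs2⟩ := ccc_same' hP (X := X) (Z := μ.out) (by
    rw [mk_out]
    exact mul_lt_of_lt hX.le hμ hX) f x
  apply hne
  refine isFun_unique ((reg_isFun R).1 r hR1 s (hs1.trans (hf y)))
    ((reg_meets _).1 _ (hx y) s hs1) ?_
  rw [hz]
  exact (reg_meets _).1 _ (hx y') s hs2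

/-- The Cohen forcing forces the sentence `Model`. -/
theorem model [Nonempty I] (κ : I → Cardinal.{0}) (hκ : ∀ i, #(K i) = κ i)
    (hK : ∀ i, ℵ₀ < #(K i))
    (hreg : ∀ i, ∀ T : Set (K i), #T < #(K i) → ∃ α, ∀ β ∈ T, β < α)
    (hI : Nonempty ((ℕ → ℕ → Option (Finset ((Crd I K × ℕ) × ℕ))) ↪ I)) (p : Fn (Crd I K)) :
    p ∈ Model (Fn (Crd I K)) I κ := by
  have hne : ∀ i, Nonempty (K i) := fun i => mk_ne_zero_iff.1 (zero_le.trans_lt (hK i)).ne'
  refine ⟨continuumLe_ccc ccc_fn rp exists_rp hI p, fun i => ?_,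
    mem_fex_of JJ fun q _ => ⟨isIdeal hne q, fun i => mem_fex_of (hh i) fun r _ =>
      ⟨isFun_hh i r, ?_, fun μ hμ => ?_⟩⟩⟩
  · exact staysCardinal ccc_fn (by rw [mk_out, ← hκ]; exact hK i) p
  · obtain ⟨e⟩ : Nonempty (K i ≃ (κ i).out) := by
      rw [← Cardinal.eq, mk_out, hκ]
    exact slE_upper (hK i) (hreg i) e r
  · exact slE_lower (hK i) (hreg i) (by rw [mk_out, hκ]; exact hμ) r

end Pool.Agent.R592.Sl
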