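import Pool.Agent.R592.Ent.Force

/-!
# Cohen forcing for functions from `ω` to `ω`
-/

set_option autoImplicit false
set_option linter.unusedSectionVars false

namespace Pool.Agent.R592.Sl

open Cardinal MeasureTheory Set Filter Topology
open Pool.Agent.TH773.PSet Pool.Agent.R593.Rnd Pool.Agent.R592.Ent

universe u v w

/-! ### Generalities on the countable chain condition -/

section Ccc

variable {P : Type u} [Preorder P]

variable (P) in
/-- `P` satisfies the countable chain condition. -/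
def Ccc : Prop :=
  ∀ (X : Type u) (f : X → P), (∀ x x', x ≠ x' → ¬ ∃ s, s ≤ f x ∧ s ≤ f x') → Countable X

theorem ccc_same' (hP : Ccc P) {X : Type u} {Z : Type u} (h : #Z * ℵ₀ < #X) (f : X → P)
    (z : X → Z) : ∃ x x', x ≠ x' ∧ z x = z x' ∧ ∃ s, s ≤ f x ∧ s ≤ f x' := by
  have h1 : ∃ c, ¬ Countable {x // z x = c} := by
    by_contra hcon
    push Not at hcon
    have h2 : #X = Cardinal.sum fun c => #{x // z x = c} := by
      rw [← mk_sigma]
      exact (Equiv.sigmaFiberEquiv z).symm.cardinal_eq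
    have h3 : #X ≤ #Z * ℵ₀ := by
      rw [h2]
      refine (Cardinal.sum_le_sum _ (fun _ => ℵ₀) fun c => ?_).trans ?_
      · have := hcon c
        exact mk_le_aleph0
      · rw [Cardinal.sum_const']
    exact absurd h3 (not_le.2 h)
  obtain ⟨c, hc⟩ := h1
  by_contra hcon
  push Not at hcon
  apply hc
  refine hP _ (fun x : {x // z x = c} => f x.1) fun x x' hne ⟨s, hs, hs'⟩ => ?_
  exact hcon x.1 x'.1 (fun h => hne (Subtype.ext h)) (x.2.trans x'.2.symm) s hs hs'

/-- Below every set of conditions there is a countable subset which is met in the same cases. -/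
theorem exists_countable (hP : Ccc P) (D : Set P) :
    ∃ A : Set P, A.Countable ∧ A ⊆ D ∧ ∀ d ∈ D, ∃ a ∈ A, ∃ s, s ≤ d ∧ s ≤ a := by
  obtain ⟨A, -, hA⟩ := zorn_subset_nonempty
    {A : Set P | A ⊆ D ∧ ∀ a ∈ A, ∀ b ∈ A, a ≠ b → ¬ ∃ s, s ≤ a ∧ s ≤ b} (by
      intro c hc hchain hne
      refine ⟨⋃₀ c, ⟨sUnion_subset fun s hs => (hc hs).1, ?_⟩, fun s hs => subset_sUnion_of_mem hs⟩
      rintro a ⟨s, hs, ha⟩ b ⟨t, ht, hb⟩ hab
      rcases hchain.total hs ht with h | h
      · exact (hc ht).2 a (h ha) b hb hab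
      · exact (hc hs).2 a ha b (h hb) hab) ∅ ⟨empty_subset _, fun a ha => ha.elim⟩
  refine ⟨A, ?_, hA.prop.1, fun d hd => ?_⟩
  · have := hP A (fun a => a.1) fun x x' hne => hA.prop.2 x.1 x.2 x'.1 x'.2
      (fun h => hne (Subtype.ext h))
    exact this
  · by_contra hcon
    push Not at hcon
    have hdA : d ∈ A := by
      refine hA.le_of_ge (y := insert d A) ⟨insert_subset hd hA.prop.1, ?_⟩
        (subset_insert _ _) (mem_insert _ _)
      rintro a (rfl | ha) b (rfl | hb) hab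
      · exact absurd rfl hab
      · rintro ⟨s, hs, hs'⟩
        exact hcon b hb s hs hs'
      · rintro ⟨s, hs, hs'⟩
        exact hcon a ha s hs' hs
      · exact hA.prop.2 a ha b hb hab
    exact hcon d hdA d le_rfl le_rfl

theorem meets_eq_of {A D : Set P} (hAD : A ⊆ D) (h : ∀ d ∈ D, ∃ a ∈ A, ∃ s, s ≤ d ∧ s ≤ a)
    (hD : Down D) : meets A = meets D := by
  ext p
  constructor
  · intro hp q hq
    obtain ⟨r, hr, s, hs, hrs⟩ := hp q hq
    exact ⟨r, hr, s, hAD hs, hrs⟩
  · intro hp q hq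
    obtain ⟨r, hr, d, hd, hrd⟩ := hp q hq
    obtain ⟨a, ha, s, hs, hs'⟩ := h r (hD d hd r hrd)
    exact ⟨s, hs.trans hr, a, ha, hs'⟩

theorem meets_meets (A : Set P) : meets (meets A) = meets A := by
  ext p
  constructor
  · intro hp
    refine (reg_meets A).2 p fun q hq => ?_
    obtain ⟨r, hr, s, hs, hrs⟩ := hp q hq
    exact ⟨r, hr, (reg_meets A).1 s hs r hrs⟩
  · intro hp q hq
    exact ⟨q, le_rfl, p, hp, hq⟩

theorem subset_meets {A : Set P} (hA : Down A) : A ⊆ meets A :=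
  fun p hp q hq => ⟨q, le_rfl, q, hA p hp q hq, le_rfl⟩

/-- A ccc forcing which is not too large does not make the continuum too large. -/
theorem continuumLe_ccc (hP : Ccc P) {R : Type w} (g : R → P) (hg : ∀ p, ∃ r, g r ≤ p ∧ p ≤ g r)
    {Y : Type v} [Nonempty Y] (hY : Nonempty ((ℕ → ℕ → Option R) ↪ Y)) (p : P) :
    p ∈ ContinuumLe P Y := by
  obtain ⟨e⟩ := hY
  let G : Y → ℕ → ℕ → Option R := Function.invFun e
  have hG : Function.Surjective G := Function.invFun_surjective e.injective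
  refine mem_fex_of (fun y n => {q | ∃ k, ∃ r, G y n k = some r ∧ q = g r}) fun q _ X => ?_
  have h1 : ∀ n, ∃ A : ℕ → Option R, meets {q | ∃ k, ∃ r, A k = some r ∧ q = g r} =
      meets (X n) := by
    intro n
    obtain ⟨A, hA, hAD, hA'⟩ := exists_countable hP (meets (X n) ∩ range g)
    have h2 : ∃ A' : ℕ → Option R, {q | ∃ k, ∃ r, A' k = some r ∧ q = g r} = A := by
      rcases A.eq_empty_or_nonempty with rfl | hne
      · refine ⟨fun _ => none, ?_⟩
        ext q
        simp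
      · obtain ⟨f, hf⟩ := hA.exists_eq_range hne
        have h3 : ∀ k, ∃ r, g r = f k := fun k => (hAD (hf ▸ mem_range_self k)).2
        choose F hF using h3
        refine ⟨fun k => some (F k), ?_⟩
        rw [hf]
        ext q
        constructor
        · rintro ⟨k, r, hr, rfl⟩
          rw [Option.some.injEq] at hr
          exact ⟨k, by rw [← hF k, hr]⟩
        · rintro ⟨k, rfl⟩
          exact ⟨k, F k, rfl, (hF k).symm⟩
    obtain ⟨A', hA''⟩ := h2
    refine ⟨A', ?_⟩
    rw [hA'', meets_eq_of (fun a ha => (hAD ha).1) (fun d hd => ?_) (reg_meets _).1, meets_meets]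
    obtain ⟨r, hr, hr'⟩ := hg d
    obtain ⟨a, ha, s, hs, hs'⟩ := hA' (g r) ⟨(reg_meets _).1 d hd _ hr, mem_range_self r⟩
    exact ⟨a, ha, s, hs.trans hr, hs'⟩
  choose A hA using h1
  obtain ⟨y, hy⟩ := hG A
  refine mem_fex_of y fun r _ => same_of fun s _ n => ?_
  rw [← hA n]
  show s ∈ meets {q | ∃ k, ∃ r, A n k = some r ∧ q = g r} ↔
    s ∈ meets {q | ∃ k, ∃ r, G y n k = some r ∧ q = g r}
  rw [hy]

end Ccc

/-! ### Making a relation a function -/

section Tot

variable {P : Type u} [Preorder P]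

/-- `x` if `x` is a function, and the function `0` otherwise -/
def tot (x : ℕ → ℕ → Set P) (n k : ℕ) : Set P :=
  {p | (p ∈ IsFun x ∧ p ∈ meets (x n k)) ∨ (p ∈ fnot (IsFun x) ∧ k = 0)}

theorem down_tot (x : ℕ → ℕ → Set P) (n k : ℕ) : Down (tot x n k) := by
  rintro p (⟨h1, h2⟩ | ⟨h1, h2⟩) q hq
  · exact Or.inl ⟨(reg_isFun x).1 p h1 q hq, (reg_meets _).1 p h2 q hq⟩
  · exact Or.inr ⟨down_fnot _ p h1 q hq, h2⟩

theorem meets_tot {x : ℕ → ℕ → Set P} {p : P} (hp : p ∈ IsFun x) (n k : ℕ) :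
    p ∈ meets (tot x n k) ↔ p ∈ meets (x n k) := by
  constructor
  · intro h
    refine (reg_meets _).2 p fun q hq => ?_
    obtain ⟨r, hr, s, hs, hrs⟩ := h q hq
    rcases down_tot x n k s hs r hrs with ⟨-, h2⟩ | ⟨h1, -⟩
    · exact ⟨r, hr, h2⟩
    · exact absurd ((reg_isFun x).1 p hp r (hr.trans hq)) (h1 r le_rfl)
  · intro h
    exact subset_meets (down_tot x n k) (Or.inl ⟨hp, h⟩)

theorem isFun_tot (x : ℕ → ℕ → Set P) (p : P) : p ∈ IsFun (tot x) := by
  refine ⟨fun n => mem_fex.2 fun q _ => ?_, fun n k k' hne q _ hq => ?_⟩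
  · by_cases h : ∃ r ≤ q, r ∈ IsFun x
    · obtain ⟨r, hr, hx⟩ := h
      obtain ⟨s, hs, k, hk⟩ := isFun_total hx n
      exact ⟨s, hs.trans hr, k, (meets_tot ((reg_isFun x).1 r hx s hs) n k).2 hk⟩
    · push Not at h
      exact ⟨q, le_rfl, 0, subset_meets (down_tot x n 0) (Or.inr ⟨h, rfl⟩)⟩
  · obtain ⟨hk, hk'⟩ := hq
    by_cases h : ∃ r ≤ q, r ∈ IsFun x
    · obtain ⟨r, hr, hx⟩ := h
      exact hne (isFun_unique hx ((meets_tot hx n k).1 ((reg_meets _).1 q hk r hr))
        ((meets_tot hx n k').1 ((reg_meets _).1 q hk' r hr)))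
    · push Not at h
      have h0 : ∀ j, q ∈ meets (tot x n j) → j = 0 := by
        intro j hj
        obtain ⟨r, hr, s, hs, hrs⟩ := hj q le_rfl
        rcases down_tot x n j s hs r hrs with ⟨h1, -⟩ | ⟨-, h2⟩
        · exact absurd h1 (h r hr)
        · exact h2
      exact hne ((h0 k hk).trans (h0 k' hk').symm)

end Tot

/-! ### The conditions -/

/-- The conditions of the Cohen forcing which adds a generic function from `ω` to `ω` for each
element of `C`: finite partial functions from `C × ω` to `ω`. -/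
structure Fn (C : Type) : Type where
  dom : Finset (C × ℕ)
  val : C × ℕ → ℕ

variable {C : Type}

/-- A condition is stronger than the conditions which it extends. -/
instance : Preorder (Fn C) where
  le a b := b.dom ⊆ a.dom ∧ ∀ t ∈ b.dom, a.val t = b.val t
  le_refl a := ⟨subset_rfl, fun _ _ => rfl⟩
  le_trans a b c h h' := ⟨h'.1.trans h.1, fun t ht => (h.2 t (h'.1 ht)).trans (h'.2 t ht)⟩

/-- the conditions `a` and `b` are compatible -/
def Agree (a b : Fn C) : Prop := ∀ t ∈ a.dom, t ∈ b.dom → a.val t = b.val t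

theorem agree_of_le {a b c : Fn C} (h : c ≤ a) (h' : c ≤ b) : Agree a b :=
  fun t ht ht' => (h.2 t ht).symm.trans (h'.2 t ht')

theorem exists_glue {a b : Fn C} (h : Agree a b) :
    ∃ c, c ≤ a ∧ c ≤ b ∧ ∀ t ∈ c.dom, t ∈ a.dom ∨ t ∈ b.dom := by
  classical
  refine ⟨⟨a.dom ∪ b.dom, fun t => if t ∈ a.dom then a.val t else b.val t⟩,
    ⟨Finset.subset_union_left, fun t ht => if_pos ht⟩,
    ⟨Finset.subset_union_right, fun t ht => ?_⟩, fun t ht => Finset.mem_union.1 ht⟩
  by_cases ht' : t ∈ a.dom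
  · exact (if_pos ht').trans (h t ht' ht)
  · exact if_neg ht'

theorem exists_ext (a : Fn C) (t : C × ℕ) (ht : t ∉ a.dom) (k : ℕ) :
    ∃ b ≤ a, t ∈ b.dom ∧ b.val t = k ∧ ∀ t' ∈ b.dom, t' ∈ a.dom ∨ t' = t := by
  classical
  refine ⟨⟨insert t a.dom, fun t' => if t' = t then k else a.val t'⟩,
    ⟨Finset.subset_insert _ _, fun t' ht' => if_neg ?_⟩, Finset.mem_insert_self _ _,
    if_pos rfl, fun t' ht' => (Finset.mem_insert.1 ht').symm⟩
  rintro rfl
  exact ht ht'

/-- the condition given by a finite set of pairs -/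
noncomputable def rp (R : Finset ((C × ℕ) × ℕ)) : Fn C := by
  classical
  exact ⟨R.image Prod.fst, fun t => sInf {k | (t, k) ∈ R}⟩

theorem exists_rp (p : Fn C) : ∃ R, rp R ≤ p ∧ p ≤ rp R := by
  classical
  have h1 : (rp (p.dom.image fun t => (t, p.val t))).dom = p.dom := by
    show (p.dom.image fun t => (t, p.val t)).image Prod.fst = p.dom
    rw [Finset.image_image]
    exact Finset.image_id
  have h2 : ∀ t ∈ p.dom, (rp (p.dom.image fun t => (t, p.val t))).val t = p.val t := by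
    intro t ht
    show sInf {k | (t, k) ∈ p.dom.image fun t => (t, p.val t)} = p.val t
    have h3 : {k | (t, k) ∈ p.dom.image fun t => (t, p.val t)} = {p.val t} := by
      ext k
      simp only [Finset.mem_image, Prod.mk.injEq, mem_ofPred_eq, mem_singleton_iff]
      constructor
      · rintro ⟨t', -, rfl, h⟩
        exact h.symm
      · rintro rfl
        exact ⟨t, ht, rfl, rfl⟩
    rw [h3, csInf_singleton]
  refine ⟨p.dom.image fun t => (t, p.val t), ⟨h1.ge, h2⟩, h1.le, fun t ht => ?_⟩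
  rw [h1] at ht
  exact (h2 t ht).symm

noncomputable section

/-- a probability measure on `ω` -/
def geo : Measure ℕ := ProbabilityTheory.geometricMeasure ⟨1 / 2, by norm_num, by norm_num⟩

instance : IsProbabilityMeasure geo := by
  unfold geo
  infer_instance

theorem geo_pos (n : ℕ) : geo {n} ≠ 0 := by
  have h := ProbabilityTheory.geometricMeasure_real_singleton_pos
    (p := ⟨1 / 2, by norm_num, by norm_num⟩) (by
      intro h
      have := congrArg Subtype.val h
      norm_num at this) (by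
      intro h
      have := congrArg Subtype.val h
      norm_num at this) n
  intro h'
  have h2 : geo.real {n} = 0 := by
    rw [Measure.real, h', ENNReal.toReal_zero]
  exact absurd h2 h.ne'

theorem ccc_fn : Ccc (Fn C) := by
  classical
  intro X f hf
  let μ : Measure (C × ℕ → ℕ) := Measure.infinitePi fun _ => geo
  let E : X → Set (C × ℕ → ℕ) := fun x =>
    Set.pi ((f x).dom : Set (C × ℕ)) fun t => {(f x).val t}
  have hE : ∀ x, MeasurableSet (E x) := fun x =>
    MeasurableSet.pi (Finset.countable_toSet _) fun t _ => MeasurableSet.singleton _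
  have hpos : ∀ x, 0 < μ (E x) := by
    intro x
    have h1 : μ (E x) = ∏ t ∈ (f x).dom, geo {(f x).val t} :=
      Measure.infinitePi_pi _ fun t _ => MeasurableSet.singleton _
    rw [h1, pos_iff_ne_zero, Finset.prod_ne_zero_iff]
    exact fun t _ => geo_pos _
  have hdisj : Pairwise (Function.onFun Disjoint E) := by
    intro x x' hne
    rw [Function.onFun, Set.disjoint_left]
    intro y hy hy'
    apply hf x x' hne
    have h1 : Agree (f x) (f x') := by
      intro t ht ht'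
      have h2 : y t = (f x).val t := hy t ht
      have h3 : y t = (f x').val t := hy' t ht'
      exact h2.symm.trans h3
    obtain ⟨c, hc, hc', -⟩ := exists_glue h1
    exact ⟨c, hc, hc'⟩
  have h3 := Measure.countable_meas_pos_of_disjoint_iUnion (μ := μ) hE hdisj
  have h4 : {i | 0 < μ (E i)} = Set.univ := by
    ext i
    simp only [mem_ofPred_eq, Set.mem_univ, iff_true]
    exact hpos i
  rw [h4] at h3
  exact countable_univ_iff.1 h3

end

/-! ### Generic functions and supports -/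

/-- the generic function added for `c` -/
def gr (c : C) (n k : ℕ) : Set (Fn C) := {p | (c, n) ∈ p.dom ∧ p.val (c, n) = k}

theorem down_gr (c : C) (n k : ℕ) : Down (gr c n k) :=
  fun _ hp _ hq => ⟨hq.1 hp.1, (hq.2 _ hp.1).trans hp.2⟩

theorem meets_gr (c : C) (n k : ℕ) : meets (gr c n k) = gr c n k := by
  refine Subset.antisymm (fun p hp => ?_) (subset_meets (down_gr c n k))
  by_cases h : (c, n) ∈ p.dom
  · obtain ⟨r, hr, s, hs, hrs⟩ := hp p le_rfl
    refine ⟨h, ?_⟩
    rw [← hr.2 _ h, hrs.2 _ hs.1, hs.2]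
  · obtain ⟨q, hq, hq1, hq2, -⟩ := exists_ext p (c, n) h (k + 1)
    obtain ⟨r, hr, s, hs, hrs⟩ := hp q hq
    have h1 : r.val (c, n) = k + 1 := (hr.2 _ hq1).trans hq2
    have h2 : r.val (c, n) = k := (hrs.2 _ hs.1).trans hs.2
    omega

theorem exists_gr (c : C) (n : ℕ) (p : Fn C) : ∃ q ≤ p, ∃ k, q ∈ gr c n k := by
  by_cases h : (c, n) ∈ p.dom
  · exact ⟨p, le_rfl, _, h, rfl⟩
  · obtain ⟨q, hq, hq1, hq2, -⟩ := exists_ext p (c, n) h 0
    exact ⟨q, hq, 0, hq1, hq2⟩

theorem isFun_gr (c : C) (p : Fn C) : p ∈ IsFun (gr c) := by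
  refine ⟨fun n => mem_fex.2 fun q _ => ?_, fun n k k' hne q _ hq => ?_⟩
  · obtain ⟨r, hr, k, hk⟩ := exists_gr c n q
    exact ⟨r, hr, k, by rwa [meets_gr]⟩
  · rw [mem_fand, meets_gr, meets_gr] at hq
    exact hne (hq.1.2.symm.trans hq.2.2)

/-- the values of the function `x` are decided by conditions whose coordinates belong to `S` -/
def Sup (S : Set C) (x : ℕ → ℕ → Set (Fn C)) : Prop :=
  ∀ n, ∀ p : Fn C, ∃ r : Fn C, (∀ t ∈ r.dom, t.1 ∈ S) ∧ Agree p r ∧ ∃ k, r ∈ meets (x n k)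

theorem Sup.mono {S T : Set C} (h : S ⊆ T) {x : ℕ → ℕ → Set (Fn C)} (hx : Sup S x) : Sup T x := by
  intro n p
  obtain ⟨r, hr, hpr, hk⟩ := hx n p
  exact ⟨r, fun t ht => h (hr t ht), hpr, hk⟩

theorem exists_sup {x : ℕ → ℕ → Set (Fn C)} (hx : ∀ p, p ∈ IsFun x) :
    ∃ S : Set C, S.Countable ∧ Sup S x := by
  classical
  choose A hA hAD hA' using fun n => exists_countable (P := Fn C) ccc_fn
    {r | ∃ k, r ∈ meets (x n k)}
  refine ⟨⋃ n, ⋃ r ∈ A n, ⋃ t ∈ r.dom, {t.1}, ?_, fun n p => ?_⟩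
  · refine countable_iUnion fun n => (hA n).biUnion fun r _ =>
      (Finset.countable_toSet r.dom).biUnion fun t _ => countable_singleton _
  · obtain ⟨q, hq, k, hk⟩ := isFun_total (hx p) n
    obtain ⟨a, ha, s, hs, hs'⟩ := hA' n q ⟨k, hk⟩
    obtain ⟨k', hk'⟩ := hAD n ha
    refine ⟨a, fun t ht => ?_, agree_of_le (hs.trans hq) hs', k', hk'⟩
    exact mem_iUnion.2 ⟨n, mem_iUnion₂.2 ⟨a, ha, mem_iUnion₂.2 ⟨t, ht, rfl⟩⟩⟩

/-- The values at `n` of finitely many functions can be decided by adding coordinates in `S`. -/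
theorem decide_list {S : Set C} (n : ℕ) (L : List (ℕ → ℕ → Set (Fn C)))
    (hL : ∀ y ∈ L, Sup S y) (p : Fn C) :
    ∃ q ≤ p, (∀ t ∈ q.dom, t ∈ p.dom ∨ t.1 ∈ S) ∧ ∀ y ∈ L, ∃ k, q ∈ meets (y n k) := by
  induction L with
  | nil => exact ⟨p, le_rfl, fun t ht => Or.inl ht, fun y hy => by simp at hy⟩
  | cons y L ih =>
    obtain ⟨q, hq, hq1, hq2⟩ := ih fun z hz => hL z (List.mem_cons_of_mem _ hz)
    obtain ⟨r, hr, hqr, k, hk⟩ := hL y List.mem_cons_self n q
    obtain ⟨s, hs, hs', hs''⟩ := exists_glue hqr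
    refine ⟨s, hs.trans hq, fun t ht => ?_, fun z hz => ?_⟩
    · rcases hs'' t ht with h | h
      · exact hq1 t h
      · exact Or.inr (hr t h)
    · rcases List.mem_cons.1 hz with rfl | hz
      · exact ⟨k, (reg_meets _).1 r hk s hs'⟩
      · obtain ⟨k', hk'⟩ := hq2 z hz
        exact ⟨k', (reg_meets _).1 q hk' s hs⟩

end Pool.Agent.R592.Sl
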