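import Pool.Agent.R592.Sl.Sent

/-!
# An ideal with many slalom numbers in the Cohen model
-/

set_option autoImplicit false
set_option linter.unusedSectionVars false

namespace Pool.Agent.R592.Sl

open Cardinal Set
open Pool.Agent.TH773.PSet Pool.Agent.R593.Rnd Pool.Agent.R592.Ent

/-- The names of the generic functions: for each `i` a branch, and two functions for each
`β : K i`. -/
inductive Crd (I : Type) (K : I → Type) : Type
  | br (i : I) : Crd I K
  | lo (i : I) (β : K i) : Crd I K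
  | up (i : I) (β : K i) : Crd I K

variable {I : Type} {K : I → Type} [∀ i, LinearOrder (K i)]

/-- everything added before stage `α`, from the point of view of `i` -/
def St (i : I) (α : K i) : Set (Crd I K) := {c | ∀ β, α ≤ β → c ≠ .lo i β ∧ c ≠ .up i β}

theorem St_mono (i : I) {α β : K i} (h : α ≤ β) : St (K := K) i α ⊆ St i β :=
  fun _ hc γ hγ => hc γ (h.trans hγ)

/-- the code of a finite sequence -/
def code (s : List ℕ) : ℕ := Encodable.encode s

theorem length_le_code (s : List ℕ) : s.length ≤ code s := Encodable.length_le_encode s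

theorem code_inj {s t : List ℕ} (h : code s = code t) : s = t := Encodable.encode_injective h

/-- The branch added for `i` goes through `s`. -/
def Br (i : I) (s : List ℕ) : Set (Fn (Crd I K)) :=
  {p | ∀ j (h : j < s.length), (Crd.br i, j) ∈ p.dom ∧ p.val (.br i, j) = s[j]}

theorem down_Br (i : I) (s : List ℕ) : Down (Br (K := K) i s) :=
  fun _ hp _ hq j h => ⟨hq.1 (hp j h).1, (hq.2 _ (hp j h).1).trans (hp j h).2⟩

/-- The requirements on the generic functions `lo i β`. -/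
abbrev Gen (K : I → Type) [∀ i, LinearOrder (K i)] (i : I) : Type :=
  {g : K i × (ℕ → ℕ → Set (Fn (Crd I K))) // (∀ p, p ∈ IsFun g.2) ∧ Sup (St i g.1) g.2}

/-- the generic function `lo i β` differs from `y` at `n` -/
def Good {i : I} (g : Gen K i) (n : ℕ) : Set (Fn (Crd I K)) :=
  fnot (fex fun k : ℕ => fand (gr (.lo i g.1.1) n k) (meets (g.1.2 n k)))

/-- no long member of the branch satisfies the finitely many requirements and is in `A` -/
def Qs (i : I) (A : RName (Fn (Crd I K))) (L : List (Gen K i)) (m : ℕ) : Set (Fn (Crd I K)) :=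
  fall fun s : List ℕ => fall fun _ : m ≤ s.length =>
    fnot (fand (Br i s) (fand (meets (A (code s)))
      (fall fun g : Gen K i => fall fun _ : g ∈ L => Good g (code s))))

/-- the ideal -/
def JJ : FName (Fn (Crd I K)) := fun A =>
  fall fun i : I => fex fun L : List (Gen K i) => fex fun m : ℕ => Qs i A L m

/-! ### Extending conditions -/

theorem exists_br (i : I) (p : Fn (Crd I K)) (m : ℕ) :
    ∃ s : List ℕ, s.length = m ∧ ∃ q ≤ p, q ∈ Br i s ∧
      ∀ t ∈ q.dom, t ∈ p.dom ∨ t.1 = .br i := by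
  induction m with
  | zero => exact ⟨[], rfl, p, le_rfl, fun j h => by simp at h, fun t ht => Or.inl ht⟩
  | succ m ih =>
    obtain ⟨s, hs, q, hq, hqs, hq'⟩ := ih
    have h1 : ∃ r ≤ q, ∃ k, (Crd.br i, m) ∈ r.dom ∧ r.val (Crd.br i, m) = k ∧
        ∀ t ∈ r.dom, t ∈ q.dom ∨ t.1 = Crd.br i := by
      by_cases h : ((Crd.br i : Crd I K), m) ∈ q.dom
      · exact ⟨q, le_rfl, _, h, rfl, fun t ht => Or.inl ht⟩
      · obtain ⟨r, hr, h1, h2, h3⟩ := exists_ext q _ h 0
        refine ⟨r, hr, 0, h1, h2, fun t ht => ?_⟩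
        rcases h3 t ht with h' | h'
        · exact Or.inl h'
        · exact Or.inr (by rw [h'])
    obtain ⟨r, hr, k, hk, hk', hr'⟩ := h1
    subst hs
    refine ⟨s ++ [k], by simp, r, hr.trans hq, fun j hj => ?_, fun t ht => ?_⟩
    · have hj' := hj
      rw [List.length_append, List.length_singleton] at hj'
      rcases Nat.lt_succ_iff_lt_or_eq.1 hj' with h | h
      · have h2 := down_Br i s q hqs r hr j h
        rw [List.getElem_append_left h]
        exact h2
      · subst h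
        refine ⟨hk, hk'.trans ?_⟩
        rw [List.getElem_append_right (by omega)]
        simp
    · rcases hr' t ht with h | h
      · exact hq' t h
      · exact Or.inr h

theorem exists_bound {P : Type} [Preorder P] (n : ℕ) (q : P) (L : List (ℕ → ℕ → Set P))
    (hL : ∀ y ∈ L, q ∈ IsFun y) (hd : ∀ y ∈ L, ∃ k, q ∈ meets (y n k)) :
    ∃ B, ∀ y ∈ L, ∀ r ≤ q, ∀ k, r ∈ meets (y n k) → k < B := by
  induction L with
  | nil => exact ⟨0, fun y hy => by simp at hy⟩
  | cons y L ih =>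
    obtain ⟨B, hB⟩ := ih (fun z hz => hL z (List.mem_cons_of_mem _ hz))
      (fun z hz => hd z (List.mem_cons_of_mem _ hz))
    obtain ⟨k, hk⟩ := hd y List.mem_cons_self
    refine ⟨max B (k + 1), fun z hz r hr k' hk' => ?_⟩
    rcases List.mem_cons.1 hz with rfl | hz
    · have := isFun_unique ((reg_isFun z).1 q (hL z List.mem_cons_self) r hr) hk'
        ((reg_meets _).1 q hk r hr)
      omega
    · exact lt_of_lt_of_le (hB z hz r hr k' hk') (le_max_left _ _)

/-- the inductive step -/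
theorem step (i : I) (α : K i) {x : ℕ → ℕ → Set (Fn (Crd I K))} (hxf : ∀ p, p ∈ IsFun x)
    (hx : Sup (St i α) x) (L : List (Gen K i)) (n : ℕ) (T : Finset (K i)) :
    ∀ p : Fn (Crd I K), (∀ β ∈ T, (Crd.lo i β, n) ∉ p.dom ∧ (Crd.up i β, n) ∉ p.dom) →
    ∃ q ≤ p, (∀ γ, (∀ β ∈ T, β < γ) → ∀ m, ((Crd.lo i γ, m) ∈ q.dom → (Crd.lo i γ, m) ∈ p.dom) ∧
        ((Crd.up i γ, m) ∈ q.dom → (Crd.up i γ, m) ∈ p.dom)) ∧
      ∀ β ∈ T, (∀ g ∈ L, g.1.1 = β → q ∈ Good g n) ∧
        (β = α → ∃ k, q ∈ meets (x n k) ∧ q ∈ gr (.up i α) n k) := by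
  classical
  induction T using Finset.induction_on_max with
  | empty =>
    exact fun p _ => ⟨p, le_rfl, fun γ _ m => ⟨id, id⟩, fun β hβ => by simp at hβ⟩
  | insert β T hT ih =>
    intro p hp
    obtain ⟨q, hq, hq1, hq2⟩ := ih p fun β' hβ' => hp β' (Finset.mem_insert_of_mem hβ')
    have hβp := hp β (Finset.mem_insert_self _ _)
    have hβq : (Crd.lo i β, n) ∉ q.dom ∧ (Crd.up i β, n) ∉ q.dom :=
      ⟨fun h => hβp.1 ((hq1 β hT n).1 h), fun h => hβp.2 ((hq1 β hT n).2 h)⟩
    let Lβ : List (ℕ → ℕ → Set (Fn (Crd I K))) := (L.filter fun g => g.1.1 = β).map fun g => g.1.2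
    have hLβ : ∀ y ∈ Lβ, Sup (St i β) y ∧ ∀ p, p ∈ IsFun y := by
      intro y hy
      obtain ⟨g, hg, rfl⟩ := List.mem_map.1 hy
      have hg' : g.1.1 = β := by simpa using (List.mem_filter.1 hg).2
      refine ⟨?_, g.2.1⟩
      rw [← hg']
      exact g.2.2
    let L' : List (ℕ → ℕ → Set (Fn (Crd I K))) := if β = α then x :: Lβ else Lβ
    have hL' : ∀ y ∈ L', Sup (St i β) y ∧ ∀ p, p ∈ IsFun y := by
      intro y hy
      by_cases h : β = α
      · simp only [L', if_pos h] at hy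
        rcases List.mem_cons.1 hy with rfl | hy
        · rw [h]
          exact ⟨hx, hxf⟩
        · exact hLβ y hy
      · simp only [L', if_neg h] at hy
        exact hLβ y hy
    obtain ⟨r, hr, hr1, hr2⟩ := decide_list n L' (fun y hy => (hL' y hy).1) q
    obtain ⟨B, hB⟩ := exists_bound n r L' (fun y hy => (hL' y hy).2 r) hr2
    have hlo : (Crd.lo i β, n) ∉ r.dom := by
      intro h
      rcases hr1 _ h with h | h
      · exact hβq.1 h
      · exact (h β le_rfl).1 rfl
    have hup : (Crd.up i β, n) ∉ r.dom := by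
      intro h
      rcases hr1 _ h with h | h
      · exact hβq.2 h
      · exact (h β le_rfl).2 rfl
    have hku : ∃ ku, β = α → r ∈ meets (x n ku) := by
      by_cases h : β = α
      · obtain ⟨k, hk⟩ := hr2 x (by simp [L', h])
        exact ⟨k, fun _ => hk⟩
      · exact ⟨0, fun h' => absurd h' h⟩
    obtain ⟨ku, hku⟩ := hku
    obtain ⟨r1, h1, h2, h3, h4⟩ := exists_ext r (Crd.lo i β, n) hlo B
    have hup1 : (Crd.up i β, n) ∉ r1.dom := by
      intro h
      rcases h4 _ h with h | h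
      · exact hup h
      · simp at h
    obtain ⟨r2, h5, h6, h7, h8⟩ := exists_ext r1 (Crd.up i β, n) hup1 ku
    have hrr : r2 ≤ r := h5.trans h1
    refine ⟨r2, hrr.trans (hr.trans hq), fun γ hγ m => ?_, fun β' hβ' => ?_⟩
    · have hβγ : β < γ := hγ β (Finset.mem_insert_self _ _)
      have hTγ : ∀ β' ∈ T, β' < γ := fun β' hβ' => hγ β' (Finset.mem_insert_of_mem hβ')
      constructor
      · intro h
        rcases h8 _ h with h | h
        · rcases h4 _ h with h | h
          · rcases hr1 _ h with h | h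
            · exact (hq1 γ hTγ m).1 h
            · exact absurd rfl (h γ hβγ.le).1
          · simp only [Prod.mk.injEq, Crd.lo.injEq, heq_eq_eq, true_and] at h
            exact absurd h.1 hβγ.ne'
        · simp at h
      · intro h
        rcases h8 _ h with h | h
        · rcases h4 _ h with h | h
          · rcases hr1 _ h with h | h
            · exact (hq1 γ hTγ m).2 h
            · exact absurd rfl (h γ hβγ.le).2
          · simp at h
        · simp only [Prod.mk.injEq, Crd.up.injEq, heq_eq_eq, true_and] at h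
          exact absurd h.1 hβγ.ne'
    · rcases Finset.mem_insert.1 hβ' with rfl | hβ'
      · refine ⟨fun g hg hgβ s hs hs' => ?_, fun h => ?_⟩
        · obtain ⟨s', hs'', k, hk, hk'⟩ := mem_fex.1 hs' s le_rfl
          have h9 : s' ≤ r2 := hs''.trans hs
          have h10 : s'.val (Crd.lo i g.1.1, n) = B := by
            rw [hgβ]
            have h11 := h9.2 _ (h5.1 h2)
            rw [h11, h5.2 _ h2]
            exact h3
          have h12 : k = B := hk.2.symm.trans h10
          have h13 : g.1.2 ∈ L' := by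
            have : g.1.2 ∈ Lβ := List.mem_map.2 ⟨g, List.mem_filter.2 ⟨hg, by simpa using hgβ⟩, rfl⟩
            by_cases h : β' = α
            · simp only [L', if_pos h]
              exact List.mem_cons_of_mem _ this
            · simp only [L', if_neg h]
              exact this
          exact absurd (hB _ h13 s' (h9.trans hrr) k hk') (by omega)
        · refine ⟨ku, (reg_meets _).1 r (hku h) r2 hrr, ?_⟩
          rw [← h]
          exact ⟨h6, h7⟩
      · obtain ⟨h9, h10⟩ := hq2 β' hβ'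
        refine ⟨fun g hg hgβ => down_fnot _ q (h9 g hg hgβ) r2 (hrr.trans hr), fun h => ?_⟩
        obtain ⟨k, hk, hk'⟩ := h10 h
        exact ⟨k, (reg_meets _).1 q hk r2 (hrr.trans hr), down_gr _ _ _ q hk' r2 (hrr.trans hr)⟩

theorem key (i : I) (α : K i) {x : ℕ → ℕ → Set (Fn (Crd I K))} (hxf : ∀ p, p ∈ IsFun x)
    (hx : Sup (St i α) x) (L : List (Gen K i)) (p : Fn (Crd I K)) (N : ℕ) :
    ∃ s : List ℕ, N ≤ s.length ∧ ∃ q ≤ p, q ∈ Br i s ∧
      (∃ k, q ∈ meets (x (code s) k) ∧ q ∈ gr (.up i α) (code s) k) ∧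
      ∀ g ∈ L, q ∈ Good g (code s) := by
  classical
  obtain ⟨M, hM⟩ : ∃ M, ∀ t ∈ p.dom, t.2 < M := by
    refine ⟨p.dom.sup (fun t => t.2) + 1, fun t ht => Nat.lt_succ_of_le ?_⟩
    exact Finset.le_sup (f := fun t : Crd I K × ℕ => t.2) ht
  obtain ⟨s, hs, q, hq, hqs, hq'⟩ := exists_br i p (max N M)
  have hfresh : ∀ t : Crd I K × ℕ, t.2 = code s → t.1 ≠ .br i → t ∉ q.dom := by
    intro t ht ht' h
    rcases hq' t h with h | h
    · have h1 := hM t h
      have h2 := length_le_code s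
      have h3 : M ≤ s.length := by rw [hs]; exact le_max_right _ _
      omega
    · exact ht' h
  obtain ⟨r, hr, -, hr'⟩ := step i α hxf hx L (code s)
    (insert α (L.map fun g => g.1.1).toFinset) q fun β _ =>
      ⟨hfresh _ rfl (by simp), hfresh _ rfl (by simp)⟩
  refine ⟨s, by rw [hs]; exact le_max_left _ _, r, hr.trans hq, down_Br i s q hqs r hr,
    (hr' α (Finset.mem_insert_self _ _)).2 rfl, fun g hg => ?_⟩
  refine (hr' g.1.1 (Finset.mem_insert_of_mem ?_)).1 g hg rfl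
  rw [List.mem_toFinset]
  exact List.mem_map.2 ⟨g, hg, rfl⟩

/-! ### The ideal -/

theorem reg_JJ (A : RName (Fn (Crd I K))) : Reg (JJ (K := K) A) := reg_fall fun _ => reg_fex _

theorem Qs_mono {i : I} {A B : RName (Fn (Crd I K))} {p : Fn (Crd I K)}
    (h : ∀ q ≤ p, ∀ n, q ∈ meets (A n) → q ∈ meets (B n)) {L L' : List (Gen K i)} (hL : L ⊆ L')
    {m m' : ℕ} (hm : m ≤ m') (hp : p ∈ Qs i B L m) : p ∈ Qs i A L' m' := by
  intro s hs q hq hq'
  obtain ⟨h1, h2, h3⟩ := hq'
  exact hp s (hm.trans hs) q hq ⟨h1, h q hq _ h2, fun g hg => h3 g (hL hg)⟩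

theorem mem_JJ_of {A : RName (Fn (Crd I K))} {p : Fn (Crd I K)}
    (h : ∀ i, ∀ q ≤ p, ∃ r ≤ q, ∃ L m, r ∈ Qs (K := K) i A L m) : p ∈ JJ (K := K) A := by
  intro i
  refine mem_fex.2 fun q hq => ?_
  obtain ⟨r, hr, L, m, h'⟩ := h i q hq
  refine ⟨r, hr, L, mem_fex_of m fun r' hr' => ?_⟩
  intro s hs
  exact down_fnot _ r (h' s hs) r' hr'

theorem down_Qs (i : I) (A : RName (Fn (Crd I K))) (L : List (Gen K i)) (m : ℕ) :
    Down (Qs i A L m) :=
  down_fall fun _ => down_fall fun _ => down_fnot _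

theorem mem_JJ_iff {A : RName (Fn (Crd I K))} {p : Fn (Crd I K)} :
    p ∈ JJ (K := K) A ↔ ∀ i, ∀ q ≤ p, ∃ r ≤ q, ∃ L m, r ∈ Qs (K := K) i A L m := by
  refine ⟨fun h i q hq => ?_, mem_JJ_of⟩
  obtain ⟨r, hr, L, hL⟩ := mem_fex.1 (h i) q hq
  obtain ⟨r', hr', m, hm⟩ := mem_fex.1 hL r le_rfl
  exact ⟨r', hr'.trans hr, L, m, hm⟩

theorem JJ_mono {A B : RName (Fn (Crd I K))} {p : Fn (Crd I K)}
    (h : ∀ q ≤ p, ∀ n, q ∈ meets (A n) → q ∈ meets (B n)) (hp : p ∈ JJ (K := K) B) :
    p ∈ JJ (K := K) A := by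
  rw [mem_JJ_iff] at hp ⊢
  intro i q hq
  obtain ⟨r, hr, L, m, hr'⟩ := hp i q hq
  exact ⟨r, hr, L, m, Qs_mono (fun q' hq' => h q' (hq'.trans (hr.trans hq))) (fun _ h => h)
    le_rfl hr'⟩

theorem mem_iff {A : RName (Fn (Crd I K))} {p : Fn (Crd I K)} :
    p ∈ Mem A (JJ (K := K)) ↔ p ∈ JJ (K := K) A := by
  constructor
  · intro h
    refine (reg_JJ A).2 p fun q hq => ?_
    obtain ⟨r, hr, B, hAB, hB⟩ := mem_fex.1 h q hq
    obtain ⟨r', hr', s, hs, hrs⟩ := hB r le_rfl
    refine ⟨r', hr'.trans hr, JJ_mono (fun q' hq' n h' => ?_) ((reg_JJ B).1 s hs r' hrs)⟩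
    exact (meets_of_same hAB (hq'.trans hr') n).1 h'
  · intro h
    refine mem_fex_of A fun q hq => ⟨same_of fun _ _ _ => Iff.rfl, ?_⟩
    exact subset_meets (reg_JJ A).1 ((reg_JJ A).1 p h q hq)

theorem sup_gr {S : Set (Crd I K)} {c : Crd I K} (hc : c ∈ S) : Sup S (gr c) := by
  intro n p
  obtain ⟨q, hq, k, hk⟩ := exists_gr c n p
  refine ⟨⟨{(c, n)}, fun _ => k⟩, fun t ht => ?_, fun t ht ht' => ?_, k, ?_⟩
  · rw [Finset.mem_singleton] at ht
    rw [ht]
    exact hc
  · rw [Finset.mem_singleton] at ht'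
    subst ht'
    exact (hq.2 _ ht).symm.trans hk.2
  · rw [meets_gr]
    exact ⟨Finset.mem_singleton_self _, rfl⟩

theorem isIdeal [Nonempty I] (hne : ∀ i, Nonempty (K i)) (p : Fn (Crd I K)) :
    p ∈ IsIdeal (JJ (K := K)) := by
  refine ⟨fun A => ?_, fun A B => ?_, fun A B C => ?_, fun q _ hq => ?_⟩
  · refine mem_fimp.2 fun q _ hq => ⟨q, le_rfl, ?_⟩
    rw [mem_iff, mem_JJ_iff]
    intro i q' hq'
    obtain ⟨r, hr, N, hN⟩ := mem_fex.1 hq q' hq'
    refine ⟨r, hr, [], N, fun s hs r' hr' h => ?_⟩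
    exact hN (code s) (hs.trans (length_le_code s)) r' hr' h.2.1
  · refine mem_fimp.2 fun q _ hq => ⟨q, le_rfl, ?_⟩
    obtain ⟨h1, h2⟩ := hq
    rw [mem_iff] at h2 ⊢
    exact JJ_mono (fun q' hq' n => (mem_fimp_reg (reg_meets _).1 (reg_meets _)).1 (h1 n) q' hq') h2
  · refine mem_fimp.2 fun q _ hq => ⟨q, le_rfl, ?_⟩
    obtain ⟨h1, h2, h3⟩ := hq
    rw [mem_iff, mem_JJ_iff] at h1 h2 ⊢
    intro i q' hq'
    obtain ⟨r, hr, L, m, hr'⟩ := h1 i q' hq'
    obtain ⟨r', hrr, L', m', hr''⟩ := h2 i r (hr.trans hq')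
    refine ⟨r', hrr.trans hr, L ++ L', max m m', fun s hs q'' hq'' h => ?_⟩
    obtain ⟨h4, h5, h6⟩ := h
    obtain ⟨t, ht, ht'⟩ := mem_fimp.1 (h3 (code s)) q''
      (hq''.trans (hrr.trans (hr.trans hq'))) h5
    obtain ⟨t', htt, ht'' | ht''⟩ := mem_disj.1 ht' t le_rfl
    · refine hr' s ((le_max_left _ _).trans hs) t' (htt.trans (ht.trans (hq''.trans hrr)))
        ⟨down_Br i s _ h4 _ (htt.trans ht), ht'', fun g hg => ?_⟩
      exact down_fnot _ _ (h6 g (List.mem_append_left _ hg)) _ (htt.trans ht)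
    · refine hr'' s ((le_max_right _ _).trans hs) t' (htt.trans (ht.trans hq''))
        ⟨down_Br i s _ h4 _ (htt.trans ht), ht'', fun g hg => ?_⟩
      exact down_fnot _ _ (h6 g (List.mem_append_right _ hg)) _ (htt.trans ht)
  · rw [mem_iff, mem_JJ_iff] at hq
    obtain ⟨i⟩ : Nonempty I := inferInstance
    obtain ⟨α⟩ := hne i
    obtain ⟨r, hr, L, m, hr'⟩ := hq i q le_rfl
    obtain ⟨s, hs, r', hrr, h1, -, h2⟩ := key i α (x := gr (Crd.br i)) (isFun_gr _)
      (sup_gr fun β _ => ⟨by simp, by simp⟩) L r m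
    refine hr' s hs r' hrr ⟨h1, ?_, fun g hg => h2 g hg⟩
    exact subset_meets (fun _ _ _ _ => trivial) trivial

end Pool.Agent.R592.Sl
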