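import Pool.Agent.R592.Sl.Cohen
import Pool.Agent.R592.Hd.Force

/-!
# Sentences about slalom numbers
-/

set_option autoImplicit false
set_option linter.unusedSectionVars false

namespace Pool.Agent.R592.Sl

open Cardinal Set
open Pool.Agent.TH773.PSet Pool.Agent.R593.Rnd Pool.Agent.R592.Ent

universe u v w

variable {P : Type u} [Preorder P]

/-- The subset `A` of `ω` is finite. -/
def Finit (A : RName P) : Set P :=
  fex fun N : ℕ => fall fun n : ℕ => fall fun _ : N ≤ n => fnot (meets (A n))

/-- `J` is an ideal on `ω` which contains every finite set and does not contain `ω`. -/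
def IsIdeal (J : FName P) : Set P :=
  fand (fall fun A : RName P => fimp (Finit A) (Mem A J))
    (fand (fall fun A : RName P => fall fun B : RName P => fimp (fand (Sub A B) (Mem B J)) (Mem A J))
      (fand (fall fun A : RName P => fall fun B : RName P => fall fun C : RName P =>
          fimp (fand (Mem A J) (fand (Mem B J)
            (fall fun n => fimp (meets (C n)) (disj (meets (A n)) (meets (B n)))))) (Mem C J))
        (fnot (Mem (fun _ => Set.univ) J))))

/-- `s` is an `h`-slalom, where `h` is a function from `ω` to `ω` and `s` is a relation between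
natural numbers, regarded as the function which sends `n` to the set of the numbers related to
`n`: if `h n = m` then no finite set with more than `m` elements is included in `s n`. -/
def IsSlalom (h s : ℕ → ℕ → Set P) : Set P :=
  fall fun n : ℕ => fall fun F : Finset ℕ => fall fun m : ℕ => fall fun _ : m < F.card =>
    fimp (meets (h n m)) (fex fun k : ℕ => fex fun _ : k ∈ F => fnot (meets (s n k)))

/-- the set `{n : x n ∈ s n}` -/
def Cap (x s : ℕ → ℕ → Set P) : RName P :=
  fun n => fex fun k : ℕ => fand (meets (x n k)) (meets (s n k))

/-- `𝔰𝔩ₑ(h, J)` is at most the cardinality of `Y`: there is a family `D` of `h`-slaloms, indexed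
by `Y`, such that for each `x : ω → ω` there is `y` such that `{n : x n ∈ D y n}` is not in
`J`. -/
def SlE (h : ℕ → ℕ → Set P) (J : FName P) (Y : Type v) : Set P :=
  fex fun D : Y → ℕ → ℕ → Set P => fand (fall fun y => IsSlalom h (D y))
    (fall fun x : ℕ → ℕ → Set P => fimp (IsFun x) (fex fun y => fnot (Mem (Cap x (D y)) J)))

variable (P) in
/-- The continuum is at most the cardinality of `I`, each `κ i` is a cardinal, and there is an
ideal `J` on `ω` such that for each `i` there is a function `h` from `ω` to `ω` such that
`𝔰𝔩ₑ(h, J) = κ i`. -/
def Model (I : Type v) (κ : I → Cardinal.{v}) : Set P :=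
  fand (ContinuumLe P I)
    (fand (fall fun i => Hd.StaysCardinal P (κ i).out)
      (fex fun J : FName P => fand (IsIdeal J)
        (fall fun i => fex fun h : ℕ → ℕ → Set P => fand (IsFun h)
          (fand (SlE h J (κ i).out)
            (fall fun μ : Cardinal.{v} => fall fun _ : μ < κ i => fnot (SlE h J μ.out))))))

end Pool.Agent.R592.Sl
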